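import Pool.Agent.N637.SLK.Ari
import Pool.Agent.N383.SLX.Hil

/-!
# Project SLK: the criterion in terms of norms and Legendre symbols (helper568; adapted from
`Pool.Agent.N383.SLX.Hil`, helper383)
-/

set_option autoImplicit false
set_option linter.all false

open scoped Classical

namespace Pool.Agent.N568.SLK

open Finset
open Pool.Agent.N637.SLK
open Pool.Agent.N916.GB (Po Vt sy z2 z2_add_self nr_recip sum_uu)
open Pool.Agent.Y703.CQ (nr)
open Pool.Agent.N973.ND (uu)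
open Pool.Agent.N637.SLX (NS IsLk Bf Dn Nm uv mem_vt sum_vt)
open Pool.Agent.N875.X15 (even_val sq_cancel val_zero sq_of_mod8)
open Pool.Agent.N383.SLX (nm_iff isSq_iff nz nr_nz nz_zero_iff nz_mul nz_prod sub_vt not_dvd_pr
  sy_odd sy_two nr_self val_n not_sq_odd yT Ep Ep_sum lk_of sqf_prod)

section glob

variable {t : Bool} {r s : ZMod 2} {S : Finset ℕ} {m : ℤ} {n : ℕ}

lemma sum_uv {t : Bool} {r s : ZMod 2} {S : Finset ℕ} {m : ℤ} (h : TyG t r s S m) :
    ∑ p ∈ Vt t S, uv s p = 1 := by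
  rw [sum_vt h.po]
  have e : ∑ p ∈ S, uv s p = ∑ p ∈ S, uu p :=
    Finset.sum_congr rfl fun p hp => if_neg (h.po p hp).2
  have h4 := sum_uu S h.po
  rw [e]
  have e2 : uv s 2 = s := if_pos rfl
  rcases h.ty with ⟨rfl, rfl, hm, hm4⟩ | ⟨rfl, rfl, rfl, hm, hm4⟩ | ⟨rfl, rfl, rfl, hm, hm4⟩ |
    ⟨rfl, rfl, rfl, hm, hm4⟩
  · rw [if_neg (by decide), zero_add]
    rcases z2 (∑ p ∈ S, uu p) with h0 | h0
    · rw [if_pos h0] at h4
      omega
    · exact h0
  · rw [if_pos rfl, e2]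
    rcases z2 (∑ p ∈ S, uu p) with h0 | h0
    · rw [h0, add_zero]
    · rw [h0, if_neg (by decide)] at h4
      omega
  · rw [if_pos rfl, e2]
    rcases z2 (∑ p ∈ S, uu p) with h0 | h0
    · rw [h0, add_zero]
    · rw [h0, if_neg (by decide)] at h4
      omega
  · rw [if_pos rfl, e2]
    rcases z2 (∑ p ∈ S, uu p) with h0 | h0
    · rw [if_pos h0] at h4
      omega
    · rw [h0, zero_add]

lemma pr_vt (h : TyG t r s S m) {p : ℕ} (hp : p ∈ Vt t S) : p.Prime := by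
  rcases mem_vt hp with rfl | hp'
  · exact Nat.prime_two
  · exact (h.po p hp').1

/-- `n` in terms of the primes -/
theorem n_eq (h : TyG t r s S m) (hn : (n : ℤ) = if t = true then -4 * m else -m) :
    (t = false ∧ n = ∏ q ∈ S, q) ∨ (t = true ∧ r = 0 ∧ n = 4 * ∏ q ∈ S, q) ∨
      (t = true ∧ r = 1 ∧ n = 8 * ∏ q ∈ S, q) := by
  rcases h.ty with ⟨rfl, rfl, hm, hm4⟩ | ⟨rfl, rfl, rfl, hm, hm4⟩ | ⟨rfl, rfl, rfl, hm, hm4⟩ |
    ⟨rfl, rfl, rfl, hm, hm4⟩
  · left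
    rw [if_neg (by decide)] at hn
    exact ⟨rfl, by omega⟩
  · right; left
    rw [if_pos rfl] at hn
    exact ⟨rfl, rfl, by omega⟩
  · right; right
    rw [if_pos rfl] at hn
    exact ⟨rfl, rfl, by omega⟩
  · right; right
    rw [if_pos rfl] at hn
    exact ⟨rfl, rfl, by omega⟩

/-- the sum of the symbols at `p` -/
theorem sum_sy (h : TyG t r s S m) (hn : (n : ℤ) = if t = true then -4 * m else -m) {p : ℕ}
    (hp : p ∈ S) : ∃ n' : ℕ, n = p * n' ∧ ¬ (p : ℤ) ∣ (n' : ℤ) ∧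
      nz p n' = ∑ q ∈ Vt t S, sy r s p q := by
  have hpo := h.po p hp
  have : Fact p.Prime := ⟨hpo.1⟩
  have hcc : ∀ x : ZMod 2, x + x = 0 := z2_add_self
  obtain ⟨P, hP⟩ : ∃ P : ℕ, P = ∏ q ∈ S.erase p, q := ⟨_, rfl⟩
  have hPS : ∏ q ∈ S, q = p * P := by
    rw [hP, Finset.mul_prod_erase S (fun q => q) hp]
  obtain ⟨k1, k2⟩ := nz_prod (p := p) (S.erase p) (fun q hq => by
    rw [mem_erase] at hq
    exact not_dvd_pr hpo.1 (h.po q hq.2).1 (Ne.symm hq.1))
  have hPc : ((P : ℕ) : ℤ) = ∏ q ∈ S.erase p, (q : ℤ) := by rw [hP]; push_cast; rfl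
  rw [← hPc] at k1 k2
  -- the sum over the odd primes
  have e1 : ∑ q ∈ S, sy r s p q = nz p P + uu p * ∑ q ∈ S.erase p, uu q := by
    have e2 : ∑ q ∈ S, sy r s p q = ∑ q ∈ S, nr q p :=
      sum_congr rfl fun q hq => sy_odd (h.po q hq).2
    rw [e2, ← Finset.add_sum_erase S (fun q => nr q p) hp, nr_self, zero_add, k2, mul_sum,
      ← sum_add_distrib]
    refine sum_congr rfl fun q hq => ?_
    rw [mem_erase] at hq
    have := nr_recip hpo (h.po q hq.2) (Ne.symm hq.1)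
    rw [← nr_nz, ← this, ← add_assoc, hcc, zero_add]
  have e3 := sum_uv h
  rw [sum_vt h.po] at e3
  have e4 : ∑ q ∈ S, uv s q = uu p + ∑ q ∈ S.erase p, uu q := by
    rw [Finset.add_sum_erase S uu hp]
    exact sum_congr rfl fun q hq => if_neg (h.po q hq).2
  have e5 : uv s 2 = s := if_pos rfl
  rw [e4, e5] at e3
  rw [sum_vt h.po, e1, sy_two]
  obtain ⟨U, hU⟩ : ∃ U : ZMod 2, U = ∑ q ∈ S.erase p, uu q := ⟨_, rfl⟩
  rw [← hU] at e3 ⊢
  have h2p : ¬ (p : ℤ) ∣ ((2 : ℕ) : ℤ) := not_dvd_pr hpo.1 Nat.prime_two hpo.2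
  have h2p' : ¬ (p : ℤ) ∣ 2 := by exact_mod_cast h2p
  have hpp : Prime (p : ℤ) := Nat.prime_iff_prime_int.1 hpo.1
  have h4p : ¬ (p : ℤ) ∣ 4 := by
    intro h4
    have : (4 : ℤ) = 2 * 2 := by norm_num
    rw [this] at h4
    rcases hpp.dvd_or_dvd h4 with h4 | h4 <;> exact h2p' h4
  have h8p : ¬ (p : ℤ) ∣ 8 := by
    intro h4
    have : (8 : ℤ) = 2 * 4 := by norm_num
    rw [this] at h4
    rcases hpp.dvd_or_dvd h4 with h4 | h4
    · exact h2p' h4
    · exact h4p h4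
  have n4 : nz p 4 = 0 := by
    rw [nz_zero_iff]
    exact ⟨2, by norm_num⟩
  have n8 : nz p 8 = nr p 2 := by
    have : (8 : ℤ) = 2 * 4 := by norm_num
    rw [this, nz_mul h2p' h4p, n4, add_zero, nr_nz]
    rfl
  rcases n_eq h hn with ⟨rfl, hn'⟩ | ⟨rfl, rfl, hn'⟩ | ⟨rfl, rfl, hn'⟩
  · refine ⟨P, by rw [hn', hPS], k1, ?_⟩
    rw [if_neg (by decide)] at e3 ⊢
    rw [zero_add] at e3 ⊢
    rcases z2 (uu p) with h0 | h0 <;> rcases z2 U with h1 | h1 <;> rw [h0, h1] at e3 ⊢ <;>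
      first
      | (exfalso; revert e3; decide)
      | simp
  · refine ⟨4 * P, by rw [hn', hPS]; ring, ?_, ?_⟩
    · push_cast
      intro h'
      rcases hpp.dvd_or_dvd h' with h' | h'
      · exact h4p h'
      · exact k1 h'
    · push_cast
      rw [nz_mul h4p k1, n4, zero_add, if_pos rfl, zero_mul, zero_add]
      rw [if_pos rfl] at e3
      generalize nz p P = X
      rcases z2 (uu p) with h0 | h0 <;> rcases z2 U with h1 | h1 <;> rcases z2 s with h3 | h3 <;>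
        rw [h0, h1, h3] at e3 ⊢ <;>
        first
        | (exfalso; revert e3; decide)
        | (rcases z2 X with h4 | h4 <;> rw [h4] <;> decide)
  · refine ⟨8 * P, by rw [hn', hPS]; ring, ?_, ?_⟩
    · push_cast
      intro h'
      rcases hpp.dvd_or_dvd h' with h' | h'
      · exact h8p h'
      · exact k1 h'
    · push_cast
      rw [nz_mul h8p k1, n8, if_pos rfl, one_mul]
      rw [if_pos rfl] at e3
      generalize nz p P = X
      generalize nr p 2 = Y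
      rcases z2 (uu p) with h0 | h0 <;> rcases z2 U with h1 | h1 <;> rcases z2 s with h3 | h3 <;>
        rw [h0, h1, h3] at e3 ⊢ <;>
        first
        | (exfalso; revert e3; decide)
        | (rcases z2 X with h4 | h4 <;> rcases z2 Y with h5 | h5 <;> rw [h4, h5] <;> decide)

/-- the norm condition at `p` as a linear equation -/
theorem loc_eq (h : TyG t r s S m) (hn : (n : ℤ) = if t = true then -4 * m else -m) {p : ℕ}
    (hp : p ∈ S) (T : Finset ℕ) (hT : T ⊆ Vt t S) :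
    Nm p ((∏ q ∈ T, q : ℕ) : ℤ) (-(n : ℤ)) ↔
      ∑ q ∈ T, nr p q + (if p ∈ T then ∑ q ∈ Vt t S, sy r s p q else 0) = 0 := by
  have hpo := h.po p hp
  have hpf : Fact p.Prime := ⟨hpo.1⟩
  have hpp : Prime (p : ℤ) := Nat.prime_iff_prime_int.1 hpo.1
  obtain ⟨n', hn1, hn2, hn3⟩ := sum_sy h hn hp
  have hn2' : ¬ (p : ℤ) ∣ -(n' : ℤ) := by rwa [dvd_neg]
  have eb : ((-(n : ℤ) : ℤ) : ℚ_[p]) = ((p : ℕ) : ℚ_[p]) * ((-(n' : ℤ) : ℤ) : ℚ_[p]) := by
    rw [hn1]
    push_cast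
    ring
  have hb : Odd (((-(n : ℤ) : ℤ) : ℚ_[p])).valuation := by
    rw [eb]
    exact val_n hn2'
  have hN : Nm p ((∏ q ∈ T, q : ℕ) : ℤ) (-(n : ℤ)) ↔
      IsSquare ((((∏ q ∈ T, q : ℕ) : ℤ)) : ℚ_[p]) ∨
      IsSquare (-(((((∏ q ∈ T, q : ℕ) : ℤ)) : ℚ_[p]) * ((-(n : ℤ) : ℤ) : ℚ_[p]))) := by
    rw [← nm_iff hpo.2 hb]
    exact ⟨fun h' => h', fun h' _ => h'⟩
  rw [hN]
  obtain ⟨k1, k2⟩ := nz_prod (p := p) (T.erase p) (fun q hq => by
    rw [mem_erase] at hq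
    exact not_dvd_pr hpo.1 (pr_vt h (hT hq.2)) (Ne.symm hq.1))
  by_cases hpT : p ∈ T
  · rw [if_pos hpT]
    obtain ⟨P, hP⟩ : ∃ P : ℤ, P = ∏ q ∈ T.erase p, (q : ℤ) := ⟨_, rfl⟩
    rw [← hP] at k1 k2
    have hPT : (((∏ q ∈ T, q : ℕ) : ℤ)) = p * P := by
      rw [hP, Finset.mul_prod_erase T (fun q => (q : ℤ)) hpT]
      push_cast
      rfl
    have e1 : ∑ q ∈ T, nr p q = nz p P := by
      rw [← Finset.add_sum_erase T (fun q => nr p q) hpT, nr_self, zero_add, k2]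
      exact sum_congr rfl fun q _ => nr_nz q
    rw [e1, ← hn3, hPT, ← nz_mul k1 hn2, nz_zero_iff]
    have hPn : ¬ (p : ℤ) ∣ P * n' := by
      intro h'
      rcases hpp.dvd_or_dvd h' with h' | h'
      · exact k1 h'
      · exact hn2 h'
    rw [← isSq_iff hpo.2 hPn]
    have e2 : (((p : ℤ) * P : ℤ) : ℚ_[p]) = ((p : ℕ) : ℚ_[p]) * (P : ℚ_[p]) := by
      push_cast
      rfl
    have hp0 : ((p : ℕ) : ℚ_[p]) ≠ 0 := by exact_mod_cast hpo.1.ne_zero
    constructor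
    · rintro (h' | h')
      · exfalso
        rw [e2] at h'
        exact not_sq_odd (val_n k1) h'
      · rw [e2, eb] at h'
        have e3 : -((((p : ℕ) : ℚ_[p]) * (P : ℚ_[p])) *
            (((p : ℕ) : ℚ_[p]) * ((-(n' : ℤ) : ℤ) : ℚ_[p]))) =
            (((p : ℕ) : ℚ_[p]) * ((p : ℕ) : ℚ_[p])) * ((P * n' : ℤ) : ℚ_[p]) := by
          push_cast
          ring
        rw [e3] at h'
        exact sq_cancel (mul_ne_zero hp0 hp0) ⟨_, rfl⟩ h'
    · intro h'
      right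
      rw [e2, eb]
      have e3 : -((((p : ℕ) : ℚ_[p]) * (P : ℚ_[p])) *
          (((p : ℕ) : ℚ_[p]) * ((-(n' : ℤ) : ℤ) : ℚ_[p]))) =
          (((p : ℕ) : ℚ_[p]) * ((p : ℕ) : ℚ_[p])) * ((P * n' : ℤ) : ℚ_[p]) := by
        push_cast
        ring
      rw [e3]
      exact IsSquare.mul ⟨_, rfl⟩ h'
  · rw [if_neg hpT, add_zero]
    rw [Finset.erase_eq_of_notMem hpT] at k1 k2
    have hPc : (((∏ q ∈ T, q : ℕ) : ℤ)) = ∏ q ∈ T, (q : ℤ) := by push_cast; rfl
    rw [← hPc] at k1 k2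
    have e1 : ∑ q ∈ T, nr p q = nz p ((∏ q ∈ T, q : ℕ) : ℤ) := by
      rw [k2]
      exact sum_congr rfl fun q _ => nr_nz q
    rw [e1, nz_zero_iff, ← isSq_iff hpo.2 k1]
    constructor
    · rintro (h' | h')
      · exact h'
      · exfalso
        refine not_sq_odd ?_ h'
        have e3 : -(((((∏ q ∈ T, q : ℕ) : ℤ)) : ℚ_[p]) * ((-(n : ℤ) : ℤ) : ℚ_[p])) =
            ((p : ℕ) : ℚ_[p]) * (((((∏ q ∈ T, q : ℕ) : ℤ)) * n' : ℤ) : ℚ_[p]) := by
          rw [eb]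
          push_cast
          ring
        rw [e3]
        apply val_n
        intro h''
        rcases hpp.dvd_or_dvd h'' with h'' | h''
        · exact k1 h''
        · exact hn2 h''
    · exact Or.inl

/-- the prime divisors of `n` -/
theorem dvd_n (h : TyG t r s S m) (hn : (n : ℤ) = if t = true then -4 * m else -m) (q : ℕ)
    (hq : q.Prime) : q ∣ n ↔ q ∈ Vt t S := by
  have hS : q ∣ ∏ p ∈ S, p ↔ q ∈ S := by
    constructor
    · intro h'
      obtain ⟨a, ha, hqa⟩ := (Prime.dvd_finsetProd_iff (Nat.prime_iff.1 hq) _).1 h'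
      rwa [(Nat.prime_dvd_prime_iff_eq hq (h.po a ha).1).1 hqa]
    · exact fun h' => Finset.dvd_prod_of_mem _ h'
  have h24 : q ∣ 4 ↔ q = 2 := by
    constructor
    · intro h'
      have : (4 : ℕ) = 2 ^ 2 := by norm_num
      rw [this] at h'
      exact (Nat.prime_dvd_prime_iff_eq hq Nat.prime_two).1 (hq.dvd_of_dvd_pow h')
    · rintro rfl; norm_num
  have h28 : q ∣ 8 ↔ q = 2 := by
    constructor
    · intro h'
      have : (8 : ℕ) = 2 ^ 3 := by norm_num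
      rw [this] at h'
      exact (Nat.prime_dvd_prime_iff_eq hq Nat.prime_two).1 (hq.dvd_of_dvd_pow h')
    · rintro rfl; norm_num
  rcases n_eq h hn with ⟨rfl, hn'⟩ | ⟨rfl, -, hn'⟩ | ⟨rfl, -, hn'⟩
  · rw [hn', hS]
    unfold Vt
    rw [if_neg (by decide)]
  · rw [hn', hq.dvd_mul, hS, h24]
    unfold Vt
    rw [if_pos rfl, mem_insert]
  · rw [hn', hq.dvd_mul, hS, h28]
    unfold Vt
    rw [if_pos rfl, mem_insert]

theorem n_ne (h : TyG t r s S m) (hn : (n : ℤ) = if t = true then -4 * m else -m) : n ≠ 0 := by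
  have := h.neg
  rintro rfl
  split_ifs at hn <;> push_cast at hn <;> omega

theorem pf_n (h : TyG t r s S m) (hn : (n : ℤ) = if t = true then -4 * m else -m) :
    n.primeFactors = Vt t S := by
  ext q
  rw [Nat.mem_primeFactors]
  constructor
  · rintro ⟨h1, h2, -⟩
    exact (dvd_n h hn q h1).1 h2
  · intro h1
    have h2 := pr_vt h h1
    exact ⟨h2, (dvd_n h hn q h2).2 h1, n_ne h hn⟩

/-- the equation at an odd prime -/
theorem Ep_eq (h : TyG t r s S m) (T : Finset ℕ) (hT : T ⊆ Vt t S) (p : {x : ℕ // x ∈ Vt t S})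
    (hp : p.1 ∈ S) : Ep (NS t r s S) (yT t S T) p =
      ∑ q ∈ T, nr p.1 q + (if p.1 ∈ T then ∑ q ∈ Vt t S, sy r s p.1 q else 0) := by
  unfold Ep
  rw [sum_add_distrib]
  congr 1
  · have e1 : ∀ q : {x : ℕ // x ∈ Vt t S}, yT t S T q * NS t r s S q p =
        (fun q : ℕ => if q ∈ T then nr p.1 q else 0) q.1 := by
      intro q
      unfold yT
      show (if q.1 ∈ T then (1 : ZMod 2) else 0) * sy r s q.1 p.1 = if q.1 ∈ T then nr p.1 q.1 else 0
      rw [sy_odd (h.po p.1 hp).2]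
      split_ifs
      · rw [one_mul]
      · rw [zero_mul]
    rw [sum_congr rfl fun q _ => e1 q,
      Finset.sum_coe_sort (Vt t S) (fun q : ℕ => if q ∈ T then nr p.1 q else 0),
      ← Finset.sum_filter]
    congr 1
    ext q
    rw [mem_filter]
    exact ⟨fun h' => h'.2, fun h' => ⟨hT h', h'⟩⟩
  · rw [← mul_sum]
    have e2 : ∑ q : {x : ℕ // x ∈ Vt t S}, NS t r s S p q = ∑ q ∈ Vt t S, sy r s p.1 q :=
      Finset.sum_coe_sort (Vt t S) (sy r s p.1)
    rw [e2]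
    unfold yT
    split_ifs
    · rw [one_mul]
    · rw [zero_mul]

/-- the translation of the left kernel -/
theorem dn_iff (h : TyG t r s S m) (hn : (n : ℤ) = if t = true then -4 * m else -m) {d : ℕ}
    (hd : Squarefree d) (hdn : d ∣ n) :
    Dn n d ↔ IsLk (NS t r s S) (yT t S d.primeFactors) := by
  have hT : d.primeFactors ⊆ Vt t S := by
    rw [← pf_n h hn]
    exact Nat.primeFactors_mono hdn (n_ne h hn)
  have hprod : ∏ q ∈ d.primeFactors, q = d := Nat.prod_primeFactors_of_squarefree hd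
  constructor
  · intro hD
    refine lk_of _ _ fun p hp2 => ?_
    have hpS : p.1 ∈ S := (mem_vt p.2).resolve_left hp2
    rw [Ep_eq h _ hT p hpS, ← loc_eq h hn hpS _ hT, hprod]
    have hpr := pr_vt h p.2
    intro hF
    exact hD.2.2 p.1 hpr hp2 ((dvd_n h hn p.1 hpr).2 p.2)
  · intro hL
    refine ⟨hd, hdn, fun p hp hp2 hpn => ?_⟩
    have hpV := (dvd_n h hn p hp).1 hpn
    have hpS : p ∈ S := (mem_vt hpV).resolve_left hp2
    have h1 := hL ⟨p, hpV⟩
    have h2 := Ep_eq h _ hT ⟨p, hpV⟩ hpS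
    have h3 : Ep (NS t r s S) (yT t S d.primeFactors) ⟨p, hpV⟩ = 0 := h1
    rw [h3] at h2
    intro hF
    have h4 := (loc_eq h hn hpS _ hT).2 h2.symm
    rwa [hprod] at h4

/-- all the functions come from divisors -/
theorem surj_y (h : TyG t r s S m) (hn : (n : ℤ) = if t = true then -4 * m else -m)
    (y : {x : ℕ // x ∈ Vt t S} → ZMod 2) :
    ∃ d : ℕ, Squarefree d ∧ d ∣ n ∧ yT t S d.primeFactors = y := by
  obtain ⟨T, hT⟩ : ∃ T : Finset ℕ, T = (univ.filter fun q => y q = 1).image Subtype.val := ⟨_, rfl⟩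
  have hTV : T ⊆ Vt t S := by
    intro q hq
    rw [hT, mem_image] at hq
    obtain ⟨a, -, rfl⟩ := hq
    exact a.2
  have hTp : ∀ q ∈ T, q.Prime := fun q hq => pr_vt h (hTV hq)
  have hpf : (∏ q ∈ T, q).primeFactors = T := Nat.primeFactors_prod hTp
  refine ⟨∏ q ∈ T, q, sqf_prod T hTp, ?_, ?_⟩
  · refine dvd_trans (Finset.prod_dvd_prod_of_subset T n.primeFactors (fun q => q) ?_)
      (Nat.prod_primeFactors_dvd n)
    rwa [pf_n h hn]
  · rw [hpf]
    funext q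
    unfold yT
    have hq : q.1 ∈ T ↔ y q = 1 := by
      rw [hT, mem_image]
      constructor
      · rintro ⟨a, ha, haq⟩
        have : a = q := Subtype.ext haq
        rw [← this]
        exact (mem_filter.1 ha).2
      · intro h1
        exact ⟨q, mem_filter.2 ⟨mem_univ _, h1⟩, rfl⟩
    by_cases hq1 : q.1 ∈ T
    · rw [if_pos hq1, hq.1 hq1]
    · rw [if_neg hq1]
      rcases z2 (y q) with h0 | h0
      · exact h0.symm
      · exact absurd (hq.2 h0) hq1

/-- different divisors give different functions -/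
theorem inj_y (h : TyG t r s S m) (hn : (n : ℤ) = if t = true then -4 * m else -m) {d d' : ℕ}
    (hd : Squarefree d) (hdn : d ∣ n) (hd' : Squarefree d') (hdn' : d' ∣ n)
    (he : yT t S d.primeFactors = yT t S d'.primeFactors) : d = d' := by
  have hT : d.primeFactors ⊆ Vt t S := by
    rw [← pf_n h hn]
    exact Nat.primeFactors_mono hdn (n_ne h hn)
  have hT' : d'.primeFactors ⊆ Vt t S := by
    rw [← pf_n h hn]
    exact Nat.primeFactors_mono hdn' (n_ne h hn)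
  have key : ∀ q (hq : q ∈ Vt t S), q ∈ d.primeFactors ↔ q ∈ d'.primeFactors := by
    intro q hq
    have h1 := congrFun he ⟨q, hq⟩
    unfold yT at h1
    by_cases h2 : q ∈ d.primeFactors <;> by_cases h3 : q ∈ d'.primeFactors
    · exact ⟨fun _ => h3, fun _ => h2⟩
    · rw [if_pos h2, if_neg h3] at h1
      exact absurd h1 one_ne_zero
    · rw [if_neg h2, if_pos h3] at h1
      exact absurd h1.symm one_ne_zero
    · exact ⟨fun h' => absurd h' h2, fun h' => absurd h' h3⟩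
  have hTT : d.primeFactors = d'.primeFactors := by
    ext q
    exact ⟨fun hq => (key q (hT hq)).1 hq, fun hq => (key q (hT' hq)).2 hq⟩
  rw [← Nat.prod_primeFactors_of_squarefree hd, ← Nat.prod_primeFactors_of_squarefree hd', hTT]

theorem card_gen (h : TyG t r s S m) (hn : (n : ℤ) = if t = true then -4 * m else -m)
    (A : ℕ → Prop) (B : ({x : ℕ // x ∈ Vt t S} → ZMod 2) → Prop)
    (hA : ∀ d, A d → Squarefree d ∧ d ∣ n)
    (hAB : ∀ d, Squarefree d → d ∣ n → (A d ↔ B (yT t S d.primeFactors))) :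
    Nat.card {d : ℕ // A d} = Nat.card {y : {x : ℕ // x ∈ Vt t S} → ZMod 2 // B y} := by
  refine Nat.card_congr (Equiv.ofBijective (fun d : {d : ℕ // A d} =>
    (⟨yT t S d.1.primeFactors, (hAB d.1 (hA d.1 d.2).1 (hA d.1 d.2).2).1 d.2⟩ :
      {y : {x : ℕ // x ∈ Vt t S} → ZMod 2 // B y})) ⟨?_, ?_⟩)
  · intro d d' he
    have he' := congrArg Subtype.val he
    obtain ⟨a1, a2⟩ := hA d.1 d.2
    obtain ⟨b1, b2⟩ := hA d'.1 d'.2
    exact Subtype.ext (inj_y h hn a1 a2 b1 b2 he')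
  · rintro ⟨y, hy⟩
    obtain ⟨d, hd, hdn, rfl⟩ := surj_y h hn y
    exact ⟨⟨d, (hAB d hd hdn).2 hy⟩, rfl⟩

end glob

section form

variable {t : Bool} {r s : ZMod 2} {S : Finset ℕ} {m : ℤ} {n : ℕ}

/-- the sum of the symbols over the support -/
theorem sum_yT (T : Finset ℕ) (hT : T ⊆ Vt t S) (g : ℕ → ZMod 2) :
    ∑ q ∈ T, g q = ∑ p : {x : ℕ // x ∈ Vt t S}, g p.1 * yT t S T p := by
  have e1 : ∀ q : {x : ℕ // x ∈ Vt t S}, g q.1 * yT t S T q =
      (fun q : ℕ => if q ∈ T then g q else 0) q.1 := by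
    intro q
    unfold yT
    show g q.1 * (if q.1 ∈ T then (1 : ZMod 2) else 0) = if q.1 ∈ T then g q.1 else 0
    split_ifs
    · rw [mul_one]
    · rw [mul_zero]
  rw [sum_congr rfl fun q _ => e1 q,
    Finset.sum_coe_sort (Vt t S) (fun q : ℕ => if q ∈ T then g q else 0), ← Finset.sum_filter]
  congr 1
  ext q
  rw [mem_filter]
  exact ⟨fun h' => ⟨hT h', h'⟩, fun h' => h'.2⟩

/-- the symbol of a divisor -/
theorem nr_div {l : ℕ} (hl : l.Prime) (hlV : l ∉ Vt t S) (hV : ∀ q ∈ Vt t S, q.Prime) {d : ℕ}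
    (hd : Squarefree d) (hT : d.primeFactors ⊆ Vt t S) :
    nr l d = ∑ p : {x : ℕ // x ∈ Vt t S}, nr l p.1 * yT t S d.primeFactors p := by
  have : Fact l.Prime := ⟨hl⟩
  obtain ⟨-, k2⟩ := nz_prod (p := l) d.primeFactors (fun q hq => by
    refine not_dvd_pr hl (hV q (hT hq)) ?_
    rintro rfl
    exact hlV (hT hq))
  have e : ((d : ℕ) : ℤ) = ∏ q ∈ d.primeFactors, (q : ℤ) := by
    conv_lhs => rw [← Nat.prod_primeFactors_of_squarefree hd]
    push_cast
    rfl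
  rw [nr_nz, e, k2, ← sum_yT d.primeFactors hT (nr l)]
  exact sum_congr rfl fun q _ => (nr_nz q).symm

/-- the labels do not divide `n` -/
theorem lb_not (h : TyG t r s S m) (hn : (n : ℤ) = if t = true then -4 * m else -m) {a c : ℤ}
    (hC : Cv a c) (hL : Lm a c m) {l : ℕ} (hl : l ∈ lb a c) : l.Prime ∧ l ∉ Vt t S := by
  unfold lb at hl
  rw [mem_filter, Nat.mem_primeFactors] at hl
  obtain ⟨⟨hp, hd, h0⟩, -⟩ := hl
  have hd' : (l : ℤ) ∣ c ^ 2 - a ^ 2 := Int.natCast_dvd.2 hd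
  have hpp : Prime (l : ℤ) := Nat.prime_iff_prime_int.1 hp
  have h2 : l ≠ 2 := by
    rintro rfl
    have ha := hC.ha
    have hc := hC.hc
    obtain ⟨k, hk⟩ := hd'
    obtain ⟨a', rfl⟩ : ∃ a', a = 2 * a' + 1 := ⟨a / 2, by omega⟩
    obtain ⟨c', rfl⟩ : ∃ c', c = 2 * c' := ⟨c / 2, by omega⟩
    have : (2 * c') ^ 2 - (2 * a' + 1) ^ 2 = 2 * (2 * c' ^ 2 - 2 * a' ^ 2 - 2 * a' - 1) + 1 := by
      ring
    rw [this] at hk
    push_cast at hk
    omega
  refine ⟨hp, fun hV => ?_⟩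
  have hln : l ∣ n := (dvd_n h hn l hp).2 hV
  have hlm : (l : ℤ) ∣ m := by
    have h3 : (l : ℤ) ∣ (n : ℤ) := by exact_mod_cast hln
    rw [hn] at h3
    split_ifs at h3
    · rcases hpp.dvd_or_dvd h3 with h4 | h4
      · exfalso
        rw [dvd_neg] at h4
        have h5 : (4 : ℤ) = 2 * 2 := by norm_num
        rw [h5] at h4
        have h6 : ¬ (l : ℤ) ∣ ((2 : ℕ) : ℤ) := not_dvd_pr hp Nat.prime_two h2
        rcases hpp.dvd_or_dvd h4 with h4 | h4
        · exact h6 (by exact_mod_cast h4)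
        · exact h6 (by exact_mod_cast h4)
      · exact h4
    · exact (dvd_neg).1 h3
  have hj := hL.bb l hp hd'
  have : Fact l.Prime := ⟨hp⟩
  have h7 : jacobiSym (-m) l = 0 := by
    rw [← jacobiSym.legendreSym.to_jacobiSym]
    rw [legendreSym.eq_zero_iff, ZMod.intCast_zmod_eq_zero_iff_dvd, dvd_neg]
    exact hlm
  rw [h7] at hj
  norm_num at hj

/-- the form -/
theorem BL_eq (h : TyG t r s S m) (hn : (n : ℤ) = if t = true then -4 * m else -m) {a c : ℤ}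
    (hC : Cv a c) (hL : Lm a c m) {d d' : ℕ}
    (hd : Squarefree d) (hdn : d ∣ n) (hd' : Squarefree d') (hdn' : d' ∣ n) :
    BL (lb a c) d d' = ∑ l ∈ lb a c, Bf (fun p : {x : ℕ // x ∈ Vt t S} => nr l p.1)
      (yT t S d.primeFactors) (yT t S d'.primeFactors) := by
  have hT : d.primeFactors ⊆ Vt t S := by
    rw [← pf_n h hn]
    exact Nat.primeFactors_mono hdn (n_ne h hn)
  have hT' : d'.primeFactors ⊆ Vt t S := by
    rw [← pf_n h hn]
    exact Nat.primeFactors_mono hdn' (n_ne h hn)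
  have hg : Squarefree (d.gcd d') := hd.squarefree_of_dvd (Nat.gcd_dvd_left _ _)
  have hgf := Nat.primeFactors_gcd hd.ne_zero hd'.ne_zero
  have hTg : (d.gcd d').primeFactors ⊆ Vt t S := by
    rw [hgf]
    exact fun q hq => hT (mem_inter.1 hq).1
  unfold BL
  refine sum_congr rfl fun l hl => ?_
  obtain ⟨hlp, hlV⟩ := lb_not h hn hC hL hl
  have hV : ∀ q ∈ Vt t S, q.Prime := fun q hq => pr_vt h hq
  rw [nr_div hlp hlV hV hd hT, nr_div hlp hlV hV hd' hT', nr_div hlp hlV hV hg hTg, hgf]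
  unfold Bf
  congr 1
  refine sum_congr rfl fun q _ => ?_
  rw [mul_assoc]
  congr 1
  unfold yT
  by_cases h1 : q.1 ∈ d.primeFactors <;> by_cases h2 : q.1 ∈ d'.primeFactors <;>
    simp [h1, h2]

end form

theorem t_HIL : Pool.Agent.N637.SLK.S_HIL := by
  intro t r s S m n h hn
  refine ⟨?_, fun a c hC hL => ?_⟩
  · exact card_gen h hn (Dn n) (IsLk (NS t r s S)) (fun d hd => ⟨hd.1, hd.2.1⟩)
      (fun d hd hdn => dn_iff h hn hd hdn)
  · refine card_gen h hn (fun d => Dn n d ∧ ∀ d' : ℕ, Dn n d' → BL (lb a c) d d' = 0)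
      (fun y => IsLk (NS t r s S) y ∧ ∀ z, IsLk (NS t r s S) z →
        ∑ l ∈ lb a c, Bf (fun p : {x : ℕ // x ∈ Vt t S} => nr l p.1) y z = 0)
      (fun d hd => ⟨hd.1.1, hd.1.2.1⟩)
      (fun d hd hdn => ?_)
    constructor
    · rintro ⟨h1, h2⟩
      refine ⟨(dn_iff h hn hd hdn).1 h1, fun z hz => ?_⟩
      obtain ⟨d', hd', hdn', rfl⟩ := surj_y h hn z
      rw [← BL_eq h hn hC hL hd hdn hd' hdn']
      exact h2 d' ((dn_iff h hn hd' hdn').2 hz)
    · rintro ⟨h1, h2⟩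
      refine ⟨(dn_iff h hn hd hdn).2 h1, fun d' hd' => ?_⟩
      rw [BL_eq h hn hC hL hd hdn hd'.1 hd'.2.1]
      exact h2 _ ((dn_iff h hn hd'.1 hd'.2.1).1 hd')

end Pool.Agent.N568.SLK
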